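import Pool.Agent.Helper25_CON.PDLem

/-!
Squad CON: module E_J4
-/

namespace Pool.Agent.CON.H19

open Pool.Agent.CON

theorem e_J4 (hV : E_VAL) (hN : E_N2) : E_J4 := by
  intro M _ b C s α β hb hC h2s hα hβ hαβ z hz ρ hρ hρ4 hdiv
  set x : M := α + β with hxdef
  have hxC : x ∈ AddSubgroup.closure C :=
    AddSubgroup.add_mem _ (AddSubgroup.subset_closure hα) (AddSubgroup.subset_closure hβ)
  set t : M := x + (2 : ℤ) • z with htdef
  have htC : t ∈ AddSubgroup.closure C :=
    AddSubgroup.add_mem _ hxC (AddSubgroup.zsmul_mem _ hz 2)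
  have hxx : b x x = 4 * s := by
    rw [hxdef, hb.add_left, hb.add_right, hb.add_right, hb.symm β α, hαβ, hC.norm α hα,
      hC.norm β hβ]
    ring
  have hxt : b x t = 4 * s + 2 * b x z := by
    rw [htdef, hb.add_right, hb.zsmul_right, hxx]
  have htt : b t t = 4 * s + 4 * b x z + 4 * b z z := by
    have e1 : b t t = b x t + 2 * b z t := by
      conv_lhs => rw [htdef]
      rw [hb.add_left, hb.zsmul_left]
    have e2 : b z t = b x z + 2 * b z z := by
      rw [htdef, hb.add_right, hb.zsmul_right, hb.symm z x]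
    rw [e1, e2, hxt]
    ring
  have h1 : ρ ∣ b t t := by
    apply hdiv t htC
    rw [hxt]
    exact ⟨2 * s + b x z, by ring⟩
  obtain ⟨k1, hk1⟩ := (hV M b C s hb hC x hxC).1 z hz
  obtain ⟨k2, hk2⟩ := (hV M b C s hb hC z hz).2
  obtain ⟨s', hs'⟩ := h2s
  have h8 : (8 : ℤ) ∣ b t t := by
    rw [htt, hk1, hk2, hs']
    exact ⟨s' + s' * k1 + 2 * s' * k2, by ring⟩
  have hpos : 0 < b t t := by
    apply hb.pos
    intro h0
    have hn := (hN M b C s hb hC).2.1 α hα β hβ hαβ (-z) (AddSubgroup.neg_mem _ hz)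
    apply hn
    have : x + (2 : ℤ) • z = 0 := h0
    rw [smul_neg]
    exact eq_neg_of_add_eq_zero_left this
  obtain ⟨m, hm⟩ : ∃ m : ℤ, ρ = 4 * m + 2 := ⟨ρ / 4, by omega⟩
  obtain ⟨c, hc⟩ := h1
  obtain ⟨d, hd⟩ := h8
  -- b t t = (4m+2) c = 8 d, so 4 | c
  have h4c : (4 : ℤ) ∣ c := by
    have h3 : (2 * m + 1) * c = 4 * d := by
      have : (4 * m + 2) * c = 8 * d := by rw [← hm, ← hc, hd]
      linarith
    have hcop : IsCoprime (4 : ℤ) (2 * m + 1) := by
      have h2 : IsCoprime (2 : ℤ) (2 * m + 1) := ⟨-m, 1, by ring⟩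
      have := h2.pow_left (m := 2)
      norm_num at this
      exact this
    exact hcop.dvd_of_dvd_mul_left ⟨d, h3⟩
  obtain ⟨c', hc'⟩ := h4c
  have hcpos : 0 < c' := by
    have : 0 < ρ * c := by rw [← hc]; exact hpos
    have h5 : 0 < c := by
      by_contra hneg
      push Not at hneg
      nlinarith
    omega
  rw [hc, hc']
  nlinarith

end Pool.Agent.CON.H19
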